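import Mathlib
import Pool.Agent.MP_1fb722_al.H39.Core

/-!
# Orderings of the omega-primality values of three generators

For a numerical monoid minimally generated by `n1 < n2 < n3`, the value `ω(n3)` is never
strictly smaller than both `ω(n1)` and `ω(n2)`; so none of the orderings (a), (b), (c) occurs.
-/

namespace Pool.Agent.Results.MP_1fb722_al.OmegaOrder

open Pool.Agent.MP_1fb722_al.H39

/-- `x ⪯_Γ y`: the difference `y - x` lies in `Γ`. -/
def Below (Γ : AddSubmonoid ℕ) (x y : ℕ) : Prop := ∃ s ∈ Γ, x + s = y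

/-- `N` is the omega-primality value of `x` in `Γ`: the least positive integer `N` such that,
whenever `a_1, …, a_r ∈ Γ` and `x ⪯ a_1 + … + a_r`, some `T ⊆ {1, …, r}` with `|T| ≤ N` has
`x ⪯ ∑_{i ∈ T} a_i`. -/
def IsOmega (Γ : AddSubmonoid ℕ) (x N : ℕ) : Prop :=
  IsLeast {M : ℕ | 0 < M ∧ ∀ (r : ℕ) (a : Fin r → ℕ), (∀ i, a i ∈ Γ) → Below Γ x (∑ i, a i) →
    ∃ T : Finset (Fin r), T.card ≤ M ∧ Below Γ x (∑ i ∈ T, a i)} N

theorem mem_iff (n1 n2 n3 s : ℕ) :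
    s ∈ AddSubmonoid.closure ({n1, n2, n3} : Set ℕ) ↔
      ∃ a b c : ℕ, s = a * n1 + b * n2 + c * n3 := by
  constructor
  · intro hs
    induction hs using AddSubmonoid.closure_induction with
    | mem x hx =>
      rcases hx with rfl | rfl | rfl
      · exact ⟨1, 0, 0, by ring⟩
      · exact ⟨0, 1, 0, by ring⟩
      · exact ⟨0, 0, 1, by ring⟩
    | zero => exact ⟨0, 0, 0, by ring⟩
    | add x y _ _ hx hy =>
      obtain ⟨a, b, c, rfl⟩ := hx
      obtain ⟨a', b', c', rfl⟩ := hy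
      exact ⟨a + a', b + b', c + c', by ring⟩
  · rintro ⟨a, b, c, rfl⟩
    have h1 : n1 ∈ AddSubmonoid.closure ({n1, n2, n3} : Set ℕ) :=
      AddSubmonoid.subset_closure (by simp)
    have h2 : n2 ∈ AddSubmonoid.closure ({n1, n2, n3} : Set ℕ) :=
      AddSubmonoid.subset_closure (by simp)
    have h3 : n3 ∈ AddSubmonoid.closure ({n1, n2, n3} : Set ℕ) :=
      AddSubmonoid.subset_closure (by simp)
    exact add_mem (add_mem (nsmul_mem h1 a) (nsmul_mem h2 b)) (nsmul_mem h3 c)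

theorem below_iff (n1 n2 n3 x u1 u2 u3 : ℕ) :
    Below (AddSubmonoid.closure ({n1, n2, n3} : Set ℕ)) x (u1 * n1 + u2 * n2 + u3 * n3) ↔
      InI n1 n2 n3 x u1 u2 u3 := by
  constructor
  · rintro ⟨s, hs, e⟩
    obtain ⟨a, b, c, rfl⟩ := (mem_iff n1 n2 n3 s).1 hs
    exact ⟨a, b, c, e.symm⟩
  · rintro ⟨a, b, c, e⟩
    exact ⟨_, (mem_iff n1 n2 n3 _).2 ⟨a, b, c, rfl⟩, e.symm⟩

/-- if `v ≤ ∑ f` then at most `v` terms already have sum at least `v`. -/
theorem pick {ι : Type} [DecidableEq ι] (s : Finset ι) (f : ι → ℕ) :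
    ∀ v : ℕ, v ≤ ∑ i ∈ s, f i → ∃ T ⊆ s, T.card ≤ v ∧ v ≤ ∑ i ∈ T, f i := by
  induction s using Finset.induction_on with
  | empty => intro v hv; exact ⟨∅, Finset.Subset.refl _, by simp, hv⟩
  | insert j s hj ih =>
    intro v hv
    rw [Finset.sum_insert hj] at hv
    by_cases h : v ≤ ∑ i ∈ s, f i
    · obtain ⟨T, hT, hc, hs⟩ := ih v h
      exact ⟨T, hT.trans (Finset.subset_insert _ _), hc, hs⟩
    · obtain ⟨T, hT, hc, hs⟩ := ih (v - f j) (by omega)
      have hjT : j ∉ T := fun h' => hj (hT h')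
      refine ⟨insert j T, Finset.insert_subset_insert _ hT, ?_, ?_⟩
      · rw [Finset.card_insert_of_notMem hjT]; omega
      · rw [Finset.sum_insert hjT]; omega

/-- the defining property of omega, for a bound `M`. -/
def P (Γ : AddSubmonoid ℕ) (x M : ℕ) : Prop :=
  ∀ (r : ℕ) (a : Fin r → ℕ), (∀ i, a i ∈ Γ) → Below Γ x (∑ i, a i) →
    ∃ T : Finset (Fin r), T.card ≤ M ∧ Below Γ x (∑ i ∈ T, a i)

theorem P_of_Q {n1 n2 n3 x N : ℕ} (h : Q n1 n2 n3 x N) :
    P (AddSubmonoid.closure ({n1, n2, n3} : Set ℕ)) x N := by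
  classical
  intro r a ha hx
  choose f1 f2 f3 hf using fun i => (mem_iff n1 n2 n3 (a i)).1 (ha i)
  have hsum : ∀ T : Finset (Fin r), ∑ i ∈ T, a i =
      (∑ i ∈ T, f1 i) * n1 + (∑ i ∈ T, f2 i) * n2 + (∑ i ∈ T, f3 i) * n3 := by
    intro T
    rw [Finset.sum_mul, Finset.sum_mul, Finset.sum_mul, ← Finset.sum_add_distrib,
      ← Finset.sum_add_distrib]
    exact Finset.sum_congr rfl fun i _ => hf i
  rw [hsum, below_iff] at hx
  obtain ⟨v1, v2, v3, h1, h2, h3, hle, p, q, t, hv⟩ := h _ _ _ hx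
  obtain ⟨T1, -, c1, s1⟩ := pick Finset.univ f1 v1 h1
  obtain ⟨T2, -, c2, s2⟩ := pick Finset.univ f2 v2 h2
  obtain ⟨T3, -, c3, s3⟩ := pick Finset.univ f3 v3 h3
  refine ⟨T1 ∪ T2 ∪ T3, ?_, ?_⟩
  · have := Finset.card_union_le (T1 ∪ T2) T3
    have := Finset.card_union_le T1 T2
    omega
  · rw [hsum, below_iff]
    have g1 : v1 ≤ ∑ i ∈ T1 ∪ T2 ∪ T3, f1 i :=
      s1.trans (Finset.sum_le_sum_of_subset (by intro i hi; simp [hi]))
    have g2 : v2 ≤ ∑ i ∈ T1 ∪ T2 ∪ T3, f2 i :=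
      s2.trans (Finset.sum_le_sum_of_subset (by intro i hi; simp [hi]))
    have g3 : v3 ≤ ∑ i ∈ T1 ∪ T2 ∪ T3, f3 i :=
      s3.trans (Finset.sum_le_sum_of_subset (by intro i hi; simp [hi]))
    obtain ⟨d1, e1⟩ := Nat.exists_eq_add_of_le g1
    obtain ⟨d2, e2⟩ := Nat.exists_eq_add_of_le g2
    obtain ⟨d3, e3⟩ := Nat.exists_eq_add_of_le g3
    rw [e1, e2, e3]
    exact ⟨p + d1, q + d2, t + d3, by linarith⟩

theorem Q_of_P {n1 n2 n3 x N : ℕ}
    (h : P (AddSubmonoid.closure ({n1, n2, n3} : Set ℕ)) x N) : Q n1 n2 n3 x N := by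
  classical
  intro u1 u2 u3 hu
  let ι := Fin u1 ⊕ Fin u2 ⊕ Fin u3
  let g : ι → ℕ := Sum.elim (fun _ => n1) (Sum.elim (fun _ => n2) (fun _ => n3))
  let e := Fintype.equivFin ι
  have hg : ∀ j, g j ∈ AddSubmonoid.closure ({n1, n2, n3} : Set ℕ) := by
    rintro (j | j | j) <;> exact AddSubmonoid.subset_closure (by simp [g])
  have hsum : ∑ i, g (e.symm i) = u1 * n1 + u2 * n2 + u3 * n3 := by
    rw [Equiv.sum_comp e.symm g]
    simp [ι, g, Fintype.sum_sum_type, add_assoc]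
  obtain ⟨T, hT, hb⟩ := h _ (fun i => g (e.symm i)) (fun i => hg _)
    (by rw [hsum, below_iff]; exact hu)
  let T' : Finset ι := T.map e.symm.toEmbedding
  have hs' : ∑ i ∈ T, g (e.symm i) = ∑ j ∈ T', g j := by
    simp [T', Finset.sum_map]
  have hc' : T'.card = T.card := Finset.card_map _
  have hsplit : ∑ j ∈ T', g j =
      T'.toLeft.card * n1 + T'.toRight.toLeft.card * n2 + T'.toRight.toRight.card * n3 := by
    rw [← Finset.toLeft_disjSum_toRight (u := T'), Finset.sum_disjSum,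
      ← Finset.toLeft_disjSum_toRight (u := T'.toRight), Finset.sum_disjSum]
    simp [g, add_assoc]
  have hcard : T'.toLeft.card + T'.toRight.toLeft.card + T'.toRight.toRight.card = T'.card := by
    rw [add_assoc, Finset.card_toLeft_add_card_toRight, Finset.card_toLeft_add_card_toRight]
  rw [hs', hsplit, below_iff] at hb
  refine ⟨_, _, _, ?_, ?_, ?_, by omega, hb⟩
  · simpa using Finset.card_le_univ T'.toLeft
  · simpa using Finset.card_le_univ T'.toRight.toLeft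
  · simpa using Finset.card_le_univ T'.toRight.toRight

theorem exists_P (Γ : AddSubmonoid ℕ) (hfin : (Γ : Set ℕ)ᶜ.Finite) (x : ℕ) :
    ∃ M, 0 < M ∧ P Γ x M := by
  classical
  obtain ⟨F, hF⟩ := hfin.bddAbove
  refine ⟨x + F + 1, by omega, ?_⟩
  intro r a _ hx
  by_cases hbig : x + F + 1 ≤ ∑ i, a i
  · obtain ⟨T, -, hc, hs⟩ := pick Finset.univ a _ hbig
    refine ⟨T, hc, ∑ i ∈ T, a i - x, ?_, by omega⟩
    by_contra hn
    have := hF (show ∑ i ∈ T, a i - x ∈ (Γ : Set ℕ)ᶜ from hn)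
    omega
  · obtain ⟨T, hT, hc, hs⟩ := pick Finset.univ a _ le_rfl
    have hle : ∑ i ∈ T, a i ≤ ∑ i, a i := Finset.sum_le_sum_of_subset hT
    refine ⟨T, by omega, ?_⟩
    rw [le_antisymm hle hs]
    exact hx

theorem exists_isOmega (Γ : AddSubmonoid ℕ) (hfin : (Γ : Set ℕ)ᶜ.Finite) (x : ℕ) :
    ∃ N, IsOmega Γ x N := by
  classical
  have h := exists_P Γ hfin x
  exact ⟨Nat.find h, Nat.find_spec h, fun M hM => Nat.find_min' h hM⟩

/-- For a numerical monoid `Γ` (finite complement in `ℕ`) minimally generated by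
`n1 < n2 < n3`, the omega values of the generators exist and none of the orderings
(a) `ω1 > ω2 > ω3`, (b) `ω1 = ω2 > ω3`, (c) `ω3 < ω1 < ω2` holds. -/
theorem result (Γ : AddSubmonoid ℕ) (n1 n2 n3 : ℕ) (h12 : n1 < n2) (h23 : n2 < n3)
    (hfin : (Γ : Set ℕ)ᶜ.Finite)
    (hgen : AddSubmonoid.closure ({n1, n2, n3} : Set ℕ) = Γ)
    (hmin : ∀ A : Set ℕ, A ⊂ {n1, n2, n3} → AddSubmonoid.closure A ≠ Γ) :
    ∃ w1 w2 w3 : ℕ, IsOmega Γ n1 w1 ∧ IsOmega Γ n2 w2 ∧ IsOmega Γ n3 w3 ∧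
      ¬ (w1 > w2 ∧ w2 > w3) ∧ ¬ (w1 = w2 ∧ w2 > w3) ∧ ¬ (w3 < w1 ∧ w1 < w2) := by
  obtain ⟨w1, hw1⟩ := exists_isOmega Γ hfin n1
  obtain ⟨w2, hw2⟩ := exists_isOmega Γ hfin n2
  obtain ⟨w3, hw3⟩ := exists_isOmega Γ hfin n3
  have h0 : 0 < n1 := by
    by_contra hn
    have hn0 : n1 = 0 := by omega
    subst hn0
    apply hmin {n2, n3}
    · refine ⟨by intro y hy; simp at hy ⊢; tauto, fun hsub => ?_⟩
      have := hsub (show (0 : ℕ) ∈ ({0, n2, n3} : Set ℕ) by simp)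
      simp at this
      omega
    · rw [← hgen]
      apply le_antisymm
      · exact AddSubmonoid.closure_mono (by intro y hy; simp at hy ⊢; tauto)
      · rw [AddSubmonoid.closure_le]
        rintro y (rfl | hy)
        · exact zero_mem _
        · exact AddSubmonoid.subset_closure hy
  subst hgen
  have hmain : w1 ≤ w3 ∨ w2 ≤ w3 := by
    rcases core h0 h12 h23 (Q_of_P hw3.1.2) with h | h
    · exact Or.inl (hw1.2 ⟨hw3.1.1, P_of_Q h⟩)
    · exact Or.inr (hw2.2 ⟨hw3.1.1, P_of_Q h⟩)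
  exact ⟨w1, w2, w3, hw1, hw2, hw3, by omega, by omega, by omega⟩

end Pool.Agent.Results.MP_1fb722_al.OmegaOrder
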